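import Mathlib
import Pool.Agent.MP_a79c01_pr.Limit
import Pool.Agent.MP_a79c01_pr.Ties

/-!
There are a deterministic observation network and a bounded private signal distribution (with
four signals) for which asymptotic learning holds.

Agents are indexed by `0, 1, 2, ...`, the state is a Boolean, `false` for `0` and `true` for `1`.
-/

set_option autoImplicit false

namespace Pool.Agent.Results.MP_a79c01_pr.Learning

open MeasureTheory Filter Topology
open Pool.Agent.MP_a79c01_pr

/-- `θ` is a uniform state and, conditional on `θ = b`, the signals `s 0, s 1, ...` are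
independent with law `F b`: every finite joint probability
`P (θ = b, s 0 = x 0, ..., s (n - 1) = x (n - 1))` is `1 / 2 * ∏ i, F b (x i)`. -/
structure IsModel {Sig Ω : Type} [MeasurableSpace Ω] (F : Bool → Sig → ℝ) (P : Measure Ω)
    (θ : Ω → Bool) (s : ℕ → Ω → Sig) : Prop where
  state_meas : ∀ b, MeasurableSet {ω | θ ω = b}
  signal_meas : ∀ n x, MeasurableSet {ω | s n ω = x}
  law : ∀ (b : Bool) (n : ℕ) (x : Fin n → Sig),
    P {ω | θ ω = b ∧ ∀ i : Fin n, s i ω = x i} = ENNReal.ofReal (1 / 2 * ∏ i, F b (x i))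

/-- The event that agent `n` has the same information as at `ω`: the actions of the agents in
her neighbourhood `N n` and her private signal are the same. -/
def info {Sig Ω : Type} (N : ℕ → Finset ℕ) (s : ℕ → Ω → Sig) (a : ℕ → Ω → Bool) (n : ℕ)
    (ω : Ω) : Set Ω :=
  {ω' | (∀ m ∈ N n, a m ω' = a m ω) ∧ s n ω' = s n ω}

/-- The actions `a` are those of Bayesian rational agents in the network `N`, for some rule of
breaking ties: the action of agent `n` is a function of her information, and given her information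
the state `θ = a n` is at least as likely as the other one. -/
structure IsRational {Sig Ω : Type} [MeasurableSpace Ω] (N : ℕ → Finset ℕ) (P : Measure Ω)
    (θ : Ω → Bool) (s : ℕ → Ω → Sig) (a : ℕ → Ω → Bool) : Prop where
  adapted : ∀ n ω, ∀ ω' ∈ info N s a n ω, a n ω' = a n ω
  optimal : ∀ n ω, P (info N s a n ω ∩ {ω' | θ ω' = !(a n ω)}) ≤
    P (info N s a n ω ∩ {ω' | θ ω' = a n ω})

section bridge

variable {Ω : Type} [MeasurableSpace Ω] {F : Bool → Fin 4 → ℝ} {P : Measure Ω}
  {θ : Ω → Bool} {s : ℕ → Ω → Fin 4} {a : ℕ → Ω → Bool} {N : ℕ → Finset ℕ} {t : Bool}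

lemma prob_event (hF : Law F) (h : IsModel F P θ s) (b : Bool) (n : ℕ)
    (Q : (ℕ → Fin 4) → Prop) (hQ : DepOn n Q) :
    P {ω | θ ω = b ∧ Q (fun i => s i ω)} =
      ENNReal.ofReal (1 / 2 * Ex (F b) n (fun σ => ind (Q σ))) := by
  classical
  have e1 : {ω | θ ω = b ∧ Q (fun i => s i ω)} =
      ⋃ x ∈ Finset.univ.filter (fun x : Fin n → Fin 4 => Q (ext n x)),
        {ω | θ ω = b ∧ ∀ i : Fin n, s i ω = x i} := by
    ext ω
    simp only [Set.mem_ofPred_eq, Finset.mem_filter, Finset.mem_univ, true_and, Set.mem_iUnion,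
      exists_prop]
    constructor
    · rintro ⟨h1, h2⟩
      refine ⟨fun i => s i ω, ?_, h1, fun i => rfl⟩
      rwa [hQ (ext n fun i : Fin n => s i ω) (fun i => s i ω)
        (fun i hi => ext_apply_lt n _ i hi)]
    · rintro ⟨x, h1, h2, h3⟩
      refine ⟨h2, ?_⟩
      rwa [hQ (fun i => s i ω) (ext n x) (fun i hi => by
        rw [ext_apply_lt n x i hi]; exact h3 ⟨i, hi⟩)]
  rw [e1, measure_biUnion_finset]
  · rw [Finset.sum_congr rfl fun x _ => h.law b n x]
    rw [← ENNReal.ofReal_sum_of_nonneg]
    · congr 1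
      unfold Ex
      rw [Finset.sum_filter, Finset.mul_sum]
      refine Finset.sum_congr rfl fun x _ => ?_
      by_cases hx : Q (ext n x)
      · simp only [if_pos hx, ind_true hx]; ring
      · simp only [if_neg hx, ind_false hx]; ring
    · intro x _
      exact mul_nonneg (by norm_num) (Finset.prod_nonneg fun i _ => (hF.pos b _).le)
  · intro x _ y _ hxy
    rw [Function.onFun, Set.disjoint_left]
    rintro ω ⟨_, h1⟩ ⟨_, h2⟩
    exact hxy (funext fun i => (h1 i).symm.trans (h2 i))
  · intro x _
    have : {ω | θ ω = b ∧ ∀ i : Fin n, s i ω = x i} =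
        {ω | θ ω = b} ∩ ⋂ i : Fin n, {ω | s i ω = x i} := by
      ext ω; simp
    rw [this]
    exact (h.state_meas b).inter (MeasurableSet.iInter fun i => h.signal_meas i (x i))

lemma Ex_info (hN : WF N) (b : Bool) (n : ℕ) (ω : ℕ → Fin 4) :
    Ex (F b) (n + 1) (fun σ => ind (Same F t 1 N (N n) σ ω ∧ σ n = ω n)) =
      pr F t 1 N b n (N n) ω * F b (ω n) := by
  classical
  rw [Ex_succ]
  · unfold pr
    rw [← Ex_mul_right]
    refine Ex_congr fun σ => ?_
    have h1 : ∀ x, (Same F t 1 N (N n) (glue n σ fun _ => x) ω ∧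
        glue n σ (fun _ => x) n = ω n) ↔ (Same F t 1 N (N n) σ ω ∧ x = ω n) := by
      intro x
      have h2 : glue n σ (fun _ => x) n = x := by simp [glue]
      rw [h2]
      have h3 : Same F t 1 N (N n) (glue n σ fun _ => x) ω = Same F t 1 N (N n) σ ω :=
        same_depOn (F := F) (t := t) (r := 1) hN (hN n) ω (glue n σ fun _ => x) σ
        (fun i hi => glue_lt n σ _ i hi)
      rw [h3]
    simp only [h1, ind_and]
    rw [Finset.sum_eq_single (ω n)]
    · rw [ind_true (P := ω n = ω n) rfl]; ring
    · intro x _ hx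
      rw [ind_false hx]; ring
    · intro hx
      exact absurd (Finset.mem_univ _) hx
  · intro σ σ' h
    have h3 := same_depOn (F := F) (t := t) (r := 1) hN (hN n) ω σ σ'
      (fun i hi => h i (by omega))
    have h4 := h n (by omega)
    simp only [h3, h4]

lemma prob_info (hF : Law F) (h : IsModel F P θ s) (hN : WF N) (b : Bool) (n : ℕ) (ω : Ω)
    (ih : ∀ m < n, ∀ ω, a m ω = act F t 1 N m (fun i => s i ω)) :
    P (info N s a n ω ∩ {ω' | θ ω' = b}) =
      ENNReal.ofReal (1 / 2 * (pr F t 1 N b n (N n) (fun i => s i ω) * F b (s n ω))) := by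
  have e1 : info N s a n ω ∩ {ω' | θ ω' = b} = {ω' | θ ω' = b ∧
      (Same F t 1 N (N n) (fun i => s i ω') (fun i => s i ω) ∧ s n ω' = s n ω)} := by
    ext ω'
    simp only [info, Set.mem_inter_iff, Set.mem_ofPred_eq, Same]
    have h1 : (∀ m ∈ N n, a m ω' = a m ω) ↔ (∀ m ∈ N n,
        act F t 1 N m (fun i => s i ω') = act F t 1 N m (fun i => s i ω)) := by
      refine forall₂_congr fun m hm => ?_
      have hmn := Finset.mem_range.mp (hN n hm)
      rw [ih m hmn, ih m hmn]
    rw [h1]
    tauto
  rw [e1]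
  have h2 := prob_event hF h b (n + 1)
    (fun σ => Same F t 1 N (N n) σ (fun i => s i ω) ∧ σ n = s n ω) (by
      intro σ σ' h
      have h3 := same_depOn (F := F) (t := t) (r := 1) hN (hN n) (fun i => s i ω) σ σ'
        (fun i hi => h i (by omega))
      have h4 := h n (by omega)
      simp only [h3, h4])
  rw [h2, Ex_info hN b n (fun i => s i ω)]

lemma ofReal_half_le {x y : ℝ} (hy : 0 < y)
    (h : ENNReal.ofReal (1 / 2 * x) ≤ ENNReal.ofReal (1 / 2 * y)) : x ≤ y := by
  have := (ENNReal.ofReal_le_ofReal_iff (by positivity)).mp h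
  linarith

/-- a rational profile is given by `act` when ties never occur -/
lemma rational_eq_act (hF : Law F) (h : IsModel F P θ s) (hN : WF N)
    (hT : ∀ i ω x, pr F t 1 N true i (N i) ω * F true x ≠ pr F t 1 N false i (N i) ω * F false x)
    (hR : IsRational N P θ s a) :
    ∀ n ω, a n ω = act F t 1 N n (fun i => s i ω) := by
  intro n
  induction n using Nat.strong_induction_on with
  | _ n ih =>
    intro ω
    have hopt := hR.optimal n ω
    rw [prob_info hF h hN _ n ω ih, prob_info hF h hN _ n ω ih] at hopt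
    have hpos : ∀ b, 0 < pr F t 1 N b n (N n) (fun i => s i ω) * F b (s n ω) :=
      fun b => mul_pos (pr_pos hF hN (hN n) b _) (hF.pos b _)
    have hle := ofReal_half_le (hpos _) hopt
    have hne := hT n (fun i => s i ω) (s n ω)
    rw [act_eq hN, one_mul]
    cases hb : a n ω
    · rw [hb] at hle
      simp only [Bool.not_false] at hle
      exact (dec_false_of_lt (lt_of_le_of_ne hle hne)).symm
    · rw [hb] at hle
      simp only [Bool.not_true] at hle
      exact (dec_true_of_lt (lt_of_le_of_ne hle (Ne.symm hne))).symm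

lemma prob_correct (hF : Law F) (h : IsModel F P θ s) (hN : WF N)
    (ha : ∀ n ω, a n ω = act F t 1 N n (fun i => s i ω)) (n : ℕ) :
    P {ω | a n ω = θ ω} = ENNReal.ofReal (1 - 1 / 2 *
      (Ex (F true) (n + 1) (fun ω => ind (act F t 1 N n ω = false)) +
      Ex (F false) (n + 1) (fun ω => ind (act F t 1 N n ω = true)))) := by
  have hd : ∀ v : Bool, DepOn (n + 1) (fun σ : ℕ → Fin 4 => act F t 1 N n σ = v) := by
    intro v σ σ' h
    have := act_depOn (F := F) (t := t) (r := 1) hN (Nat.lt_succ_self n) σ σ' h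
    simp only [this]
  have e1 : {ω | a n ω = θ ω} =
      {ω | θ ω = true ∧ act F t 1 N n (fun i => s i ω) = true} ∪
      {ω | θ ω = false ∧ act F t 1 N n (fun i => s i ω) = false} := by
    ext ω
    simp only [Set.mem_ofPred_eq, Set.mem_union]
    rw [ha n ω]
    cases θ ω <;> cases act F t 1 N n (fun i => s i ω) <;> simp
  have hm : MeasurableSet {ω | θ ω = false ∧ act F t 1 N n (fun i => s i ω) = false} := by
    have hm1 : Measurable fun ω => fun i => s i ω := by
      refine measurable_pi_iff.mpr fun i => ?_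
      refine measurable_to_countable' fun x => ?_
      exact h.signal_meas i x
    have hm2 : MeasurableSet {σ : ℕ → Fin 4 | act F t 1 N n σ = false} := by
      have hc : {σ : ℕ → Fin 4 | act F t 1 N n σ = false} =
          (fun σ : ℕ → Fin 4 => fun i : Fin (n + 1) => σ i) ⁻¹'
            {x | act F t 1 N n (ext (n + 1) x) = false} := by
        ext σ
        simp only [Set.mem_ofPred_eq, Set.mem_preimage]
        rw [act_depOn (F := F) (t := t) (r := 1) hN (Nat.lt_succ_self n)
          (ext (n + 1) fun i : Fin (n + 1) => σ i) σ (fun i hi => ext_apply_lt _ _ i hi)]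
      rw [hc]
      refine (measurable_pi_iff.mpr fun i => measurable_pi_apply _) ?_
      exact (Set.toFinite _).measurableSet
    exact (h.state_meas false).inter (hm1 hm2)
  rw [e1, measure_union _ hm, prob_event hF h true (n + 1) _ (hd true),
    prob_event hF h false (n + 1) _ (hd false), ← ENNReal.ofReal_add]
  · congr 1
    have h1 := prob_act_add (t := t) (r := 1) (N := N) hF true n
    have h2 := prob_act_add (t := t) (r := 1) (N := N) hF false n
    linarith
  · exact mul_nonneg (by norm_num) (Ex_nonneg (fun s => (hF.pos _ s).le) fun _ => ind_nonneg _)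
  · exact mul_nonneg (by norm_num) (Ex_nonneg (fun s => (hF.pos _ s).le) fun _ => ind_nonneg _)
  · rw [Set.disjoint_left]
    rintro ω ⟨h1, _⟩ ⟨h2, _⟩
    rw [h1] at h2
    exact Bool.noConfusion h2

end bridge

section existence

/-- the law of one signal as a measure -/
noncomputable def sig (F : Bool → Fin 4 → ℝ) (b : Bool) : Measure (Fin 4) :=
  ∑ x, ENNReal.ofReal (F b x) • Measure.dirac x

lemma sig_singleton (F : Bool → Fin 4 → ℝ) (b : Bool) (x : Fin 4) :
    sig F b {x} = ENNReal.ofReal (F b x) := by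
  unfold sig
  rw [Measure.finsetSum_apply, Finset.sum_eq_single x]
  · simp
  · intro y _ hy
    simp [hy]
  · intro hx
    exact absurd (Finset.mem_univ _) hx

lemma sig_prob {F : Bool → Fin 4 → ℝ} (hF : Law F) (b : Bool) :
    IsProbabilityMeasure (sig F b) := by
  constructor
  unfold sig
  rw [Measure.finsetSum_apply]
  simp only [Measure.smul_apply, measure_univ, smul_eq_mul, mul_one]
  rw [← ENNReal.ofReal_sum_of_nonneg fun x _ => (hF.pos b x).le, hF.sum b, ENNReal.ofReal_one]

/-- the law of the state and the signals -/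
noncomputable def joint (F : Bool → Fin 4 → ℝ) : Measure (Bool × (ℕ → Fin 4)) :=
  ENNReal.ofReal (1 / 2) • (Measure.infinitePi fun _ : ℕ => sig F true).map (Prod.mk true) +
  ENNReal.ofReal (1 / 2) • (Measure.infinitePi fun _ : ℕ => sig F false).map (Prod.mk false)

lemma model {F : Bool → Fin 4 → ℝ} (hF : Law F) :
    IsModel F (joint F) (fun ω => ω.1) (fun n ω => ω.2 n) := by
  have hp : ∀ b, IsProbabilityMeasure (sig F b) := sig_prob hF
  have hst : ∀ b : Bool, MeasurableSet {ω : Bool × (ℕ → Fin 4) | ω.1 = b} :=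
    fun b => measurable_fst (measurableSet_singleton b)
  have hsm : ∀ (n : ℕ) (x : Fin 4), MeasurableSet {ω : Bool × (ℕ → Fin 4) | ω.2 n = x} := by
    intro n x
    have h1 : Measurable fun ω : Bool × (ℕ → Fin 4) => ω.2 n :=
      (measurable_pi_apply n).comp measurable_snd
    exact h1 (measurableSet_singleton x)
  refine ⟨hst, hsm, fun b n x => ?_⟩
  have hmeas : MeasurableSet {ω : Bool × (ℕ → Fin 4) | ω.1 = b ∧ ∀ i : Fin n, ω.2 i = x i} := by
    have : {ω : Bool × (ℕ → Fin 4) | ω.1 = b ∧ ∀ i : Fin n, ω.2 i = x i} =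
        {ω | ω.1 = b} ∩ ⋂ i : Fin n, {ω | ω.2 i = x i} := by
      ext ω; simp
    rw [this]
    exact (hst b).inter (MeasurableSet.iInter fun i => hsm i (x i))
  have hinf : ∀ c, (Measure.infinitePi fun _ : ℕ => sig F c) {σ | ∀ i : Fin n, σ i = x i} =
      ENNReal.ofReal (∏ i, F c (x i)) := by
    intro c
    have e1 : {σ : ℕ → Fin 4 | ∀ i : Fin n, σ i = x i} =
        Set.pi (Finset.range n) (fun i => {ext n x i}) := by
      ext σ
      simp only [Set.mem_ofPred_eq, Set.mem_pi, Finset.coe_range, Set.mem_Iio,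
        Set.mem_singleton_iff]
      exact ⟨fun h i hi => by rw [ext_apply_lt n x i hi]; exact h ⟨i, hi⟩,
        fun h i => by rw [h i i.2, ext_apply_lt n x i i.2]⟩
    rw [e1, Measure.infinitePi_pi _ fun i _ => measurableSet_singleton _]
    simp only [sig_singleton]
    rw [← ENNReal.ofReal_prod_of_nonneg fun i _ => (hF.pos c _).le]
    congr 1
    rw [← Fin.prod_univ_eq_prod_range (fun i => F c (ext n x i)) n]
    exact Finset.prod_congr rfl fun i _ => by rw [ext_apply_lt n x i i.2]
  have hmap : ∀ c, ((Measure.infinitePi fun _ : ℕ => sig F c).map (Prod.mk c))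
      {ω : Bool × (ℕ → Fin 4) | ω.1 = b ∧ ∀ i : Fin n, ω.2 i = x i} =
      if c = b then ENNReal.ofReal (∏ i, F c (x i)) else 0 := by
    intro c
    rw [Measure.map_apply measurable_prodMk_left hmeas]
    by_cases hc : c = b
    · rw [if_pos hc, ← hinf c]
      congr 1
      ext σ
      simp [hc]
    · rw [if_neg hc]
      have : Prod.mk c ⁻¹' {ω : Bool × (ℕ → Fin 4) | ω.1 = b ∧ ∀ i : Fin n, ω.2 i = x i} = ∅ := by
        ext σ
        simp [hc]
      rw [this, measure_empty]
  unfold joint
  rw [Measure.add_apply, Measure.smul_apply, Measure.smul_apply, hmap, hmap]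
  rw [ENNReal.ofReal_mul (by norm_num)]
  cases b <;> simp

lemma rational {F : Bool → Fin 4 → ℝ} (hF : Law F) {N : ℕ → Finset ℕ} (hN : WF N) (t : Bool) :
    IsRational N (joint F) (fun ω => ω.1) (fun n ω => ω.2 n)
      (fun n ω => act F t 1 N n ω.2) := by
  constructor
  · rintro n ω ω' ⟨h1, h2⟩
    have h3 : Same F t 1 N (N n) ω'.2 ω.2 := h1
    have h4 : ω'.2 n = ω.2 n := h2
    change act F t 1 N n ω'.2 = act F t 1 N n ω.2
    rw [act_eq hN, act_eq hN, pr_same h3, pr_same h3, h4]
  · intro n ω
    rw [prob_info hF (model hF) hN _ n ω (t := t) (fun _ _ _ => rfl),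
      prob_info hF (model hF) hN _ n ω (t := t) (fun _ _ _ => rfl)]
    refine ENNReal.ofReal_le_ofReal (mul_le_mul_of_nonneg_left ?_ (by norm_num))
    have h1 := act_eq (F := F) (t := t) (r := 1) hN n ω.2
    rw [one_mul] at h1
    cases hb : act F t 1 N n ω.2
    · rw [hb] at h1
      exact le_of_dec_false h1.symm
    · rw [hb] at h1
      exact le_of_dec_true h1.symm

end existence

/-- There are a strictly positive signal distribution `F` on four signals, with bounded private
beliefs, and a deterministic network `N` such that, in every model of these signals, every profile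
of Bayesian rational agents (with any rule for breaking ties) satisfies `P (a n = θ) → 1`. Such
models and profiles exist. -/
theorem result : ∃ (F : Bool → Fin 4 → ℝ) (N : ℕ → Finset ℕ),
    (∀ b x, 0 < F b x) ∧ (∀ b, ∑ x, F b x = 1) ∧ F true ≠ F false ∧
    (∃ β > 0, ∀ x, β ≤ F true x / (F true x + F false x) ∧
      F true x / (F true x + F false x) ≤ 1 - β) ∧
    (∀ n, ∀ m ∈ N n, m < n) ∧
    (∃ (Ω : Type) (_ : MeasurableSpace Ω) (P : Measure Ω) (θ : Ω → Bool) (s : ℕ → Ω → Fin 4)
      (a : ℕ → Ω → Bool), IsModel F P θ s ∧ IsRational N P θ s a) ∧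
    (∀ (Ω : Type) [MeasurableSpace Ω] (P : Measure Ω) (θ : Ω → Bool) (s : ℕ → Ω → Fin 4)
      (a : ℕ → Ω → Bool), IsModel F P θ s → IsRational N P θ s a →
      Tendsto (fun n => P {ω | a n ω = θ ω}) atTop (𝓝 1)) := by
  obtain ⟨u, hu, h0, h1⟩ := exists_transcendental
  have hF : Law (FF u) := FF_law (by linarith) (by linarith)
  have hS : Setup (FF u) false (3 / 5) (5 / 3) (5 / 2) (19 / 20) := near_setup (FF_near h0 h1) hF
  obtain ⟨N, hN, hlim⟩ := limit hS
  refine ⟨FF u, N, hF.pos, hF.sum, ?_, ⟨1 / 20, by norm_num, ?_⟩,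
    fun n m hm => Finset.mem_range.mp (hN n hm), ?_, ?_⟩
  · intro h
    have h2 := congrFun h 1
    simp [FF] at h2
    linarith
  · intro x
    have hx := hF.pos true x
    have hy := hF.pos false x
    rw [le_div_iff₀ (by linarith), div_le_iff₀ (by linarith)]
    fin_cases x
    all_goals simp [FF]
    all_goals constructor
    all_goals linarith
  · exact ⟨Bool × (ℕ → Fin 4), inferInstance, joint (FF u), fun ω => ω.1, fun n ω => ω.2 n,
      fun n ω => act (FF u) false 1 N n ω.2, model hF, rational hF hN false⟩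
  · intro Ω _ P θ s a hM hR
    have ha := rational_eq_act (t := false) hF hM hN
      (fun i ω x => no_tie hu hF false hN i ω x) hR
    have e1 : (fun n => P {ω | a n ω = θ ω}) = fun n => ENNReal.ofReal (1 - 1 / 2 *
      (Ex (FF u true) (n + 1) (fun ω => ind (act (FF u) false 1 N n ω = false)) +
      Ex (FF u false) (n + 1) (fun ω => ind (act (FF u) false 1 N n ω = true)))) :=
      funext fun n => prob_correct hF hM hN ha n
    rw [e1, ← ENNReal.ofReal_one]
    refine ENNReal.tendsto_ofReal ?_
    have e2 : Tendsto (fun n =>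
        Ex (FF u true) (n + 1) (fun ω => ind (act (FF u) false 1 N n ω = false)) +
        Ex (FF u false) (n + 1) (fun ω => ind (act (FF u) false 1 N n ω = true)))
        atTop (𝓝 0) := by
      refine squeeze_zero (fun n => ?_) (fun n => err_le_BC hF hN n) hlim
      exact add_nonneg (Ex_nonneg (fun s => (hF.pos _ s).le) fun _ => ind_nonneg _)
        (Ex_nonneg (fun s => (hF.pos _ s).le) fun _ => ind_nonneg _)
    have e3 := (e2.const_mul (1 / 2)).const_sub 1
    simpa using e3

end Pool.Agent.Results.MP_a79c01_pr.Learning
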